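import Pool.Agent.H11.BT2

namespace H11.BTdim
open Finset H11.BT

/-- `K` is a tournament on `Fin n`: `K x y` means the edge is oriented from `x` to `y`. -/
def IsTour {n : ℕ} (K : Fin n → Fin n → Prop) : Prop :=
  (∀ x, ¬ K x x) ∧ ∀ x y, x ≠ y → (K x y ↔ ¬ K y x)

/-- the weights of the directed edges lie in `[0,1]` -/
def Wt {n : ℕ} (K : Fin n → Fin n → Prop) (w : Fin n → Fin n → ℝ) : Prop :=
  ∀ x y, K x y → 0 ≤ w x y ∧ w x y ≤ 1

open Classical in
/-- the matrix `p x y` of the stochastic tournament `(K,w)` -/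
noncomputable def mat {n : ℕ} (K : Fin n → Fin n → Prop) (w : Fin n → Fin n → ℝ)
    (x y : Fin n) : ℝ :=
  if K x y then w x y else 1 - w y x

/-- `p` is an average of `d` Bradley-Terry models -/
def Rep {n : ℕ} (d : ℕ) (p : Fin n → Fin n → ℝ) : Prop :=
  ∃ a : Fin d → Fin n → ℝ, (∀ i x, 0 < a i x) ∧
    ∀ x y, x ≠ y → p x y = (1 / (d : ℝ)) * ∑ i, a i x / (a i x + a i y)

/-- BT-dimension exactly `d` -/
def Dim {n : ℕ} (d : ℕ) (p : Fin n → Fin n → ℝ) : Prop := Rep d p ∧ ¬ Rep (d - 1) p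

open Classical in
/-- `(K,w)` is `ε`-far from having BT-dimension `d` -/
def Far {n : ℕ} (d : ℕ) (ε : ℝ) (K : Fin n → Fin n → Prop) (w : Fin n → Fin n → ℝ) : Prop :=
  ∀ w' : Fin n → Fin n → ℝ, Wt K w' → Dim d (mat K w') →
    ε * (n : ℝ)^2 ≤ ∑ e ∈ univ.filter (fun e : Fin n × Fin n => K e.1 e.2),
      |w e.1 e.2 - w' e.1 e.2|

/-- An `ε`-tester with at most `q` queries on `n` vertices: a uniform random seed `ω` in a finite
nonempty set fixes at most `q` pairs `Q ω`, and the verdict `D ω p` depends only on the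
off-diagonal entries of `p` on `Q ω`. -/
def Tester (d : ℕ) (ε : ℝ) (q n : ℕ) : Prop :=
  ∃ (Ω : Type) (_ : Finite Ω) (_ : Nonempty Ω) (Q : Ω → Finset (Fin n × Fin n))
    (D : Ω → (Fin n → Fin n → ℝ) → Prop),
    (∀ ω, (Q ω).card ≤ q) ∧
    (∀ ω p p', (∀ e ∈ Q ω, e.1 ≠ e.2 → p e.1 e.2 = p' e.1 e.2) → (D ω p ↔ D ω p')) ∧
    ∀ (K : Fin n → Fin n → Prop) (w : Fin n → Fin n → ℝ), IsTour K → Wt K w →
      (Dim d (mat K w) → 2 * Nat.card Ω ≤ 3 * Set.ncard {ω | D ω (mat K w)}) ∧
      (Far d ε K w → 2 * Nat.card Ω ≤ 3 * Set.ncard {ω | ¬ D ω (mat K w)})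

/-- average of fractions -/
noncomputable def av {d : ℕ} (a b : Fin d → ℝ) : ℝ := (1 / (d : ℝ)) * ∑ i, a i / (a i + b i)

lemma av_sym {d : ℕ} (hd : 0 < d) (a b : Fin d → ℝ) (ha : ∀ i, 0 < a i) (hb : ∀ i, 0 < b i) :
    av b a = 1 - av a b := by
  have hdr : (0:ℝ) < d := by exact_mod_cast hd
  unfold av
  rw [sum_congr rfl fun i _ => frac_sym (a i) (b i) (ha i) (hb i), sum_sub_distrib]
  simp only [sum_const, card_univ, Fintype.card_fin, nsmul_eq_mul]
  field_simp

lemma av_nn {d : ℕ} (a b : Fin d → ℝ) (ha : ∀ i, 0 < a i) (hb : ∀ i, 0 < b i) : 0 ≤ av a b := by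
  unfold av
  refine mul_nonneg (by positivity) (sum_nonneg fun i _ => ?_)
  have := ha i; have := hb i; positivity

lemma av_le {d : ℕ} (hd : 0 < d) (a b : Fin d → ℝ) (ha : ∀ i, 0 < a i) (hb : ∀ i, 0 < b i) :
    av a b ≤ 1 := by
  have := av_sym hd a b ha hb
  have := av_nn b a hb ha
  linarith

lemma std {n e : ℕ} (he : 0 < e) (p : Fin n → Fin n → ℝ) (α β : Fin (e+1) → Fin n)
    (hne : ∀ i j, α i ≠ β j)
    (h1 : ∀ i j, i ≠ j → p (α i) (β j) ≤ 1 / (((e:ℝ)+1) * (1 + 2 * (e+1)) + 1))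
    (h2 : ∀ i, 1 / (2 * ((e:ℝ)+1)) ≤ p (α i) (β i)) : ¬ Rep e p := by
  rintro ⟨b, hb, hp⟩
  have her : (0:ℝ) < e := by exact_mod_cast he
  have ex : ∀ i, ∃ k, 1 / (2 * ((e:ℝ)+1)) ≤ b k (α i) / (b k (α i) + b k (β i)) := by
    intro i
    by_contra hcon
    push Not at hcon
    haveI : Nonempty (Fin e) := ⟨⟨0, he⟩⟩
    have s := sum_lt_sum_of_nonempty (univ_nonempty (α := Fin e)) fun k _ => hcon k
    simp only [sum_const, card_univ, Fintype.card_fin, nsmul_eq_mul] at s
    have := h2 i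
    rw [hp _ _ (hne i i), one_div (e:ℝ), ← div_eq_inv_mul, le_div_iff₀ her] at this
    linarith
  choose k hk using ex
  obtain ⟨i, j, hij, hkk⟩ := Fintype.exists_ne_map_eq_of_card_lt k (by simp)
  set R : ℝ := ((e:ℝ)+1) * (1 + 2 * (e+1)) + 1 with hR
  have hR0 : 0 < R := by positivity
  have t1 : ∀ i j, i ≠ j → ∀ c, R * b c (α i) ≤ e * (b c (α i) + b c (β j)) := by
    intro i j hij c
    have a1 := h1 i j hij
    rw [hp _ _ (hne i j), one_div (e:ℝ), ← div_eq_inv_mul, div_le_iff₀ her] at a1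
    have a2 : b c (α i) / (b c (α i) + b c (β j)) ≤ ∑ c, b c (α i) / (b c (α i) + b c (β j)) :=
      single_le_sum (f := fun c => b c (α i) / (b c (α i) + b c (β j)))
        (fun c _ => by have := hb c (α i); have := hb c (β j); positivity) (mem_univ c)
    have a3 := a2.trans a1
    have a4 : 0 < b c (α i) + b c (β j) := add_pos (hb _ _) (hb _ _)
    rw [div_mul_eq_mul_div, div_le_div_iff₀ a4 hR0] at a3
    linarith
  have t2 : ∀ i, b (k i) (β i) ≤ 2 * ((e:ℝ)+1) * b (k i) (α i) := by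
    intro i
    have a1 := hk i
    have a4 : 0 < b (k i) (α i) + b (k i) (β i) := add_pos (hb _ _) (hb _ _)
    rw [div_le_div_iff₀ (by positivity) a4] at a1
    linarith [hb (k i) (α i)]
  have u1 := t1 i j hij (k j)
  have u2 := t1 j i hij.symm (k j)
  have u3 := t2 i
  have u4 := t2 j
  rw [hkk] at u3
  have p1 := hb (k j) (α i)
  have p2 := hb (k j) (α j)
  have v1 := mul_le_mul_of_nonneg_left u3 her.le
  have v2 := mul_le_mul_of_nonneg_left u4 her.le
  have : R * (b (k j) (α i) + b (k j) (α j))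
      ≤ e * (1 + 2 * ((e:ℝ)+1)) * (b (k j) (α i) + b (k j) (α j)) := by linarith
  have h5 := le_of_mul_le_mul_right this (add_pos p1 p2)
  rw [hR] at h5
  nlinarith

/-- planting a small example of dimension exactly `d` -/
lemma plant {n d : ℕ} (hd : 2 ≤ d) (hn : 2 * d ≤ n) (a : Fin d → Fin n → ℝ)
    (ha : ∀ i x, 0 < a i x) :
    ∃ a' : Fin d → Fin n → ℝ, (∀ i x, 0 < a' i x) ∧ (∀ i (x : Fin n), ¬ (x : ℕ) < 2 * d → a' i x = a i x) ∧
      ∀ p : Fin n → Fin n → ℝ, (∀ x y, p x y = av (fun i => a' i x) (fun i => a' i y)) →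
        ¬ Rep (d - 1) p := by
  obtain ⟨e, rfl⟩ : ∃ e, d = e + 1 := ⟨d - 1, by omega⟩
  set R : ℝ := ((e:ℝ)+1) * (1 + 2 * (e+1)) with hR
  have hR1 : 1 ≤ R := by rw [hR]; nlinarith [(Nat.cast_nonneg e : (0:ℝ) ≤ e)]
  refine ⟨fun i x => if (x : ℕ) < e + 1 then (if (x : ℕ) = i then R else 1)
    else if (x : ℕ) < 2 * (e + 1) then (if (x : ℕ) = e + 1 + i then R else R * R) else a i x,
    ?_, ?_, ?_⟩
  · intro i x
    have := ha i x
    dsimp only
    split_ifs <;> positivity
  · intro i x hx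
    dsimp only
    rw [if_neg (by omega), if_neg hx]
  · intro p hp
    have hdr : (0:ℝ) < ((e + 1 : ℕ) : ℝ) := by positivity
    refine std (e := e) (by omega) p (fun i => ⟨i, by omega⟩) (fun i => ⟨e + 1 + i, by omega⟩)
      (fun i j h => by have := congrArg Fin.val h; simp at this; omega) ?_ ?_
    · intro i j hij
      rw [hp, av, one_div ((e + 1 : ℕ) : ℝ), ← div_eq_inv_mul, div_le_iff₀ hdr, ← hR]
      calc _ ≤ ∑ _k : Fin (e+1), 1 / (R + 1) := by
            refine sum_le_sum fun k _ => ?_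
            have hij' : (i : ℕ) ≠ j := fun h => hij (Fin.ext h)
            dsimp only
            rw [if_pos i.2, if_neg (show ¬ e + 1 + (j:ℕ) < e + 1 by omega),
              if_pos (show e + 1 + (j:ℕ) < 2 * (e + 1) by omega)]
            split_ifs with c1 c2 c2
            · omega
            · rw [div_le_div_iff₀ (by positivity) (by positivity)]; nlinarith
            · rw [add_comm]
            · rw [div_le_div_iff₀ (by positivity) (by positivity)]; nlinarith
        _ = _ := by simp [mul_comm]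
    · intro i
      rw [hp, av]
      have : (1:ℝ) / 2 ≤ ∑ k : Fin (e+1),
          (if ((⟨i, by omega⟩ : Fin n) : ℕ) < e + 1 then (if ((⟨i, by omega⟩ : Fin n) : ℕ) = k then R else 1)
            else if ((⟨i, by omega⟩ : Fin n) : ℕ) < 2 * (e + 1) then
              (if ((⟨i, by omega⟩ : Fin n) : ℕ) = e + 1 + k then R else R * R) else a k ⟨i, by omega⟩) /
          ((if ((⟨i, by omega⟩ : Fin n) : ℕ) < e + 1 then (if ((⟨i, by omega⟩ : Fin n) : ℕ) = k then R else 1)
            else if ((⟨i, by omega⟩ : Fin n) : ℕ) < 2 * (e + 1) then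
              (if ((⟨i, by omega⟩ : Fin n) : ℕ) = e + 1 + k then R else R * R) else a k ⟨i, by omega⟩) +
           (if ((⟨e + 1 + i, by omega⟩ : Fin n) : ℕ) < e + 1 then
              (if ((⟨e + 1 + i, by omega⟩ : Fin n) : ℕ) = k then R else 1)
            else if ((⟨e + 1 + i, by omega⟩ : Fin n) : ℕ) < 2 * (e + 1) then
              (if ((⟨e + 1 + i, by omega⟩ : Fin n) : ℕ) = e + 1 + k then R else R * R)
              else a k ⟨e + 1 + i, by omega⟩)) := by
        refine le_trans ?_ (single_le_sum (fun k _ => ?_) (mem_univ i))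
        · dsimp only
          rw [if_pos i.2, if_pos rfl, if_neg (by omega), if_pos (by omega), if_pos rfl]
          rw [div_le_div_iff₀ (by positivity) (by positivity)]; linarith
        · dsimp only
          rw [if_pos i.2, if_neg (show ¬ e + 1 + (i:ℕ) < e + 1 by omega),
            if_pos (show e + 1 + (i:ℕ) < 2 * (e + 1) by omega)]
          split_ifs <;> positivity
      have h2 := mul_le_mul_of_nonneg_left this (show (0:ℝ) ≤ 1 / ((e + 1 : ℕ) : ℝ) by positivity)
      refine le_trans (le_of_eq ?_) h2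
      push_cast; field_simp

/-- the cost function read off from a matrix -/
noncomputable def cost {n d R : ℕ} (ρ : ℝ) (p : Fin n → Fin n → ℝ) (v w : Fin n)
    (l l' : Fin d → Fin R) : ℝ :=
  if v = w then 0 else |p v w - av (fun i => ρ^(l i : ℕ)) (fun i => ρ^(l' i : ℕ))|

lemma mat_facts {n : ℕ} {K : Fin n → Fin n → Prop} {w : Fin n → Fin n → ℝ} (hK : IsTour K)
    (hw : Wt K w) (x y : Fin n) (h : x ≠ y) :
    0 ≤ mat K w x y ∧ mat K w x y ≤ 1 ∧ mat K w y x = 1 - mat K w x y := by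
  unfold mat
  by_cases c : K x y
  · have c2 := (hK.2 x y h).1 c
    simp only [c, c2, if_true, if_false]
    exact ⟨(hw x y c).1, (hw x y c).2, trivial⟩
  · have c2 : K y x := by by_contra c3; exact c ((hK.2 x y h).2 c3)
    simp only [c, c2, if_true, if_false]
    refine ⟨by linarith [(hw y x c2).2], by linarith [(hw y x c2).1], by ring⟩

lemma cost_good {n d R : ℕ} (hd : 0 < d) (ρ : ℝ) (hρ : 0 < ρ) {K : Fin n → Fin n → Prop}
    {w : Fin n → Fin n → ℝ} (hK : IsTour K) (hw : Wt K w) :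
    Good (cost (d := d) (R := R) ρ (mat K w)) := by
  refine ⟨fun v u l l' => ?_, fun v u l l' => ?_, fun v u l l' => ?_⟩
  · unfold cost; split_ifs; exacts [le_rfl, abs_nonneg _]
  · unfold cost; split_ifs with h
    · exact zero_le_one
    · obtain ⟨a1, a2, _⟩ := mat_facts hK hw v u h
      have b1 := av_nn (fun i => ρ^(l i : ℕ)) (fun i => ρ^(l' i : ℕ)) (fun i => pow_pos hρ _)
        (fun i => pow_pos hρ _)
      have b2 := av_le hd (fun i => ρ^(l i : ℕ)) (fun i => ρ^(l' i : ℕ)) (fun i => pow_pos hρ _)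
        (fun i => pow_pos hρ _)
      rw [abs_le]; constructor <;> linarith
  · unfold cost
    by_cases h : v = u
    · simp [h]
    · rw [if_neg h, if_neg (Ne.symm h), (mat_facts hK hw v u h).2.2,
        av_sym hd (fun i => ρ^(l i : ℕ)) (fun i => ρ^(l' i : ℕ)) (fun i => pow_pos hρ _)
        (fun i => pow_pos hρ _), ← abs_neg]
      congr 1; ring

lemma complete {n d q : ℕ} (hd : 0 < d) (hq : 0 < q) (hn : q ≤ n) (p : Fin n → Fin n → ℝ)
    (hp : Rep d p) : ∃ t : Fin n → Fin d → Fin (q * (2 * (q*q) + 1) + 1),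
      Cst (cost (1 + 1/(q:ℝ)) p) t ≤ 4 * (n:ℝ)^2 / q := by
  obtain ⟨a, ha, hp⟩ := hp
  have hdr : (0:ℝ) < d := by exact_mod_cast hd
  choose φ hφ using fun i => compress q n hq hn (a i) (ha i)
  refine ⟨fun x i => φ i x, ?_⟩
  set ρ : ℝ := 1 + 1/(q:ℝ)
  calc _ ≤ ∑ x, ∑ y, (1 / (d:ℝ)) * ∑ i, |a i x / (a i x + a i y)
          - ρ^(φ i x : ℕ) / (ρ^(φ i x : ℕ) + ρ^(φ i y : ℕ))| := by
        refine sum_le_sum fun x _ => sum_le_sum fun y _ => ?_
        unfold cost
        split_ifs with h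
        · exact mul_nonneg (by positivity) (sum_nonneg fun i _ => abs_nonneg _)
        · rw [hp x y h, av, ← mul_sub, ← sum_sub_distrib, abs_mul, abs_of_pos (by positivity)]
          exact mul_le_mul_of_nonneg_left (abs_sum_le_sum_abs _ _) (by positivity)
    _ = (1 / (d:ℝ)) * ∑ i, ∑ x, ∑ y, |a i x / (a i x + a i y)
          - ρ^(φ i x : ℕ) / (ρ^(φ i x : ℕ) + ρ^(φ i y : ℕ))| := by
        simp only [← mul_sum]
        congr 1
        rw [sum_comm (s := (univ : Finset (Fin d)))]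
        refine sum_congr rfl fun x _ => sum_comm
    _ ≤ (1 / (d:ℝ)) * ∑ _i : Fin d, 4 * (n:ℝ)^2 / q :=
        mul_le_mul_of_nonneg_left (sum_le_sum fun i _ => hφ i) (by positivity)
    _ = _ := by
        simp only [sum_const, card_univ, Fintype.card_fin, nsmul_eq_mul]; field_simp

lemma sound {n d R : ℕ} (hd : 2 ≤ d) (hn : 2 * d ≤ n) (ρ : ℝ) (hρ : 0 < ρ) (ε : ℝ)
    {K : Fin n → Fin n → Prop} {w : Fin n → Fin n → ℝ} (hK : IsTour K) (hw : Wt K w)
    (hF : Far d ε K w) (t : Fin n → Fin d → Fin R) :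
    ε * (n:ℝ)^2 ≤ Cst (cost ρ (mat K w)) t + 4 * d * n := by
  classical
  have hd0 : 0 < d := by omega
  obtain ⟨a, ha, ha1, ha2⟩ := plant hd hn (fun i x => ρ^(t x i : ℕ)) (fun i x => pow_pos hρ _)
  set p : Fin n → Fin n → ℝ := fun x y => av (fun i => a i x) (fun i => a i y) with hp
  have hm : ∀ x y, mat K p x y = av (fun i => a i x) (fun i => a i y) := by
    intro x y
    unfold mat
    split_ifs
    · rfl
    · rw [av_sym hd0 (fun i => a i y) (fun i => a i x) (fun i => ha i y) (fun i => ha i x)]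
  have hpb : ∀ x y, 0 ≤ p x y ∧ p x y ≤ 1 := fun x y =>
    ⟨av_nn _ _ (fun i => ha i x) (fun i => ha i y), av_le hd0 _ _ (fun i => ha i x) (fun i => ha i y)⟩
  have := hF p (fun x y _ => hpb x y) ⟨⟨a, ha, fun x y _ => hm x y⟩, ha2 _ hm⟩
  refine this.trans ?_
  have hg := cost_good (d := d) (R := R) hd0 ρ hρ hK hw
  set I : Fin n → ℝ := fun x => if (x : ℕ) / (2 * d) = 0 then 1 else 0 with hI
  have hI0 : ∀ x, 0 ≤ I x := fun x => by simp only [hI]; split_ifs <;> norm_num
  have hIs : ∑ x, I x ≤ 2 * d := by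
    simp only [hI]; rw [sum_boole]
    exact_mod_cast block_card n (2 * d) 0 (by omega)
  calc _ ≤ ∑ e ∈ univ.filter (fun e : Fin n × Fin n => K e.1 e.2),
          (cost ρ (mat K w) e.1 e.2 (t e.1) (t e.2) + (I e.1 + I e.2)) := by
        refine sum_le_sum fun e he => ?_
        have he : K e.1 e.2 := (mem_filter.1 he).2
        have hne : e.1 ≠ e.2 := fun h => hK.1 e.2 (by rw [h] at he; exact he)
        have b1 : |w e.1 e.2 - p e.1 e.2| ≤ 1 := by
          rw [abs_le]; constructor <;> linarith [(hw _ _ he).1, (hw _ _ he).2, (hpb e.1 e.2).1,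
            (hpb e.1 e.2).2]
        have c0 := hg.nn e.1 e.2 (t e.1) (t e.2)
        by_cases c1 : (e.1 : ℕ) < 2 * d
        · have : I e.1 = 1 := by simp only [hI]; rw [if_pos (Nat.div_eq_of_lt c1)]
          linarith [hI0 e.2]
        by_cases c2 : (e.2 : ℕ) < 2 * d
        · have : I e.2 = 1 := by simp only [hI]; rw [if_pos (Nat.div_eq_of_lt c2)]
          linarith [hI0 e.1]
        have : cost ρ (mat K w) e.1 e.2 (t e.1) (t e.2) = |w e.1 e.2 - p e.1 e.2| := by
          unfold cost mat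
          rw [if_neg hne, if_pos he]
          simp only [hp, ha1 _ _ c1, ha1 _ _ c2]
        linarith [hI0 e.1, hI0 e.2]
    _ ≤ ∑ e : Fin n × Fin n, (cost ρ (mat K w) e.1 e.2 (t e.1) (t e.2) + (I e.1 + I e.2)) :=
        sum_le_sum_of_subset_of_nonneg (filter_subset _ _) fun e _ _ =>
          add_nonneg (hg.nn _ _ _ _) (add_nonneg (hI0 _) (hI0 _))
    _ = Cst (cost ρ (mat K w)) t + 2 * n * ∑ x, I x := by
        rw [sum_add_distrib, sum_add_distrib, Fintype.sum_prod_type, Fintype.sum_prod_type,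
          Fintype.sum_prod_type]
        simp only [sum_const, card_univ, Fintype.card_fin, nsmul_eq_mul, ← mul_sum, Cst]
        ring
    _ ≤ _ := by
        have := mul_le_mul_of_nonneg_left hIs (show (0:ℝ) ≤ 2 * n by positivity)
        linarith

lemma small (d : ℕ) (hd : 2 ≤ d) (ε : ℝ) (hε : 0 < ε) (q n : ℕ) (hn : n * n ≤ q) :
    Tester d ε q n := by
  refine ⟨Unit, inferInstance, inferInstance, fun _ => univ, fun _ p => Dim d p, ?_, ?_, ?_⟩
  · intro _; simpa using hn
  · intro _ p p' h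
    have : ∀ k, Rep k p ↔ Rep k p' := by
      intro k
      refine exists_congr fun a => and_congr Iff.rfl
        (forall_congr' fun x => forall_congr' fun y => forall_congr' fun hxy => ?_)
      rw [h (x, y) (mem_univ _) hxy]
    simp only [Dim, this]
  · intro K w _ hw
    constructor
    · intro h; simp [h, Set.ncard_univ]
    · intro hF
      have : ¬ Dim d (mat K w) := by
        intro h
        have h1 := hF w hw h
        simp only [sub_self, abs_zero, sum_const_zero] at h1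
        rcases Nat.eq_zero_or_pos n with h0 | h0
        · subst h0
          exact h.2 ⟨fun _ x => 1, fun _ _ => one_pos, fun x => x.elim0⟩
        · have : 0 < ε * (n:ℝ)^2 := by positivity
          linarith
      simp [this, Set.ncard_univ]

end H11.BTdim

open H11.BTdim H11.BT Finset in
theorem Pool.Agent.Results.MP_4530c2_lc.Testable.result (d : ℕ) (hd : 2 ≤ d) (ε : ℝ)
    (hε : 0 < ε) : ∃ q : ℕ, ∀ n : ℕ, Tester d ε q n := by
  classical
  set η : ℝ := ε / 42 with hη
  have hη0 : 0 < η := by positivity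
  obtain ⟨q, hq⟩ := exists_nat_gt (12 / η)
  have hqr : (0:ℝ) < q := lt_trans (by positivity) hq
  have hq0 : 0 < q := by exact_mod_cast hqr
  obtain ⟨M, hM⟩ := exists_nat_gt
    (8 * (Fintype.card (Fin d → Fin (q * (2 * (q*q) + 1) + 1)) : ℝ) / η)
  have hMr : (0:ℝ) < M := lt_of_le_of_lt (by positivity) hM
  have hM0 : 0 < M := by exact_mod_cast hMr
  obtain ⟨M', hM'⟩ := exists_nat_gt
    (6 * (Fintype.card (Fin q → Fin (M*M) → Fin d → Fin (q * (2 * (q*q) + 1) + 1)) : ℝ) / η)
  have hMr' : (0:ℝ) < M' := lt_of_le_of_lt (by positivity) hM'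
  have hM0' : 0 < M' := by exact_mod_cast hMr'
  obtain ⟨n1, hn1⟩ := exists_nat_gt (8 * (d:ℝ) / ε)
  refine ⟨(q * (M*M) + (M'*M' + M'*M')) * (q * (M*M) + (M'*M' + M'*M'))
    + (q + 2 * d + n1) * (q + 2 * d + n1), fun n => ?_⟩
  by_cases hn : n ≤ q + 2 * d + n1
  · exact small d hd ε hε _ n ((Nat.mul_le_mul hn hn).trans (Nat.le_add_left _ _))
  push Not at hn
  haveI : Nonempty (Fin n) := ⟨⟨0, by omega⟩⟩
  set ρ : ℝ := 1 + 1/(q:ℝ) with hρ
  have hρ0 : 0 < ρ := by positivity
  set j : Fin n → ℕ := fun v => (v : ℕ) / (n / q + 1) with hj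
  set t0 : Fin n → Fin d → Fin (q * (2 * (q*q) + 1) + 1) := fun _ _ => 0 with ht0
  set U : (Fin q → Fin (M*M) → Fin n) × (Fin (M'*M') → Fin n × Fin n) → Finset (Fin n) := fun ω =>
    univ.image (fun x : Fin q × Fin (M*M) => ω.1 x.1 x.2) ∪
      (univ.image (fun i => (ω.2 i).1) ∪ univ.image (fun i => (ω.2 i).2)) with hU
  refine ⟨(Fin q → Fin (M*M) → Fin n) × (Fin (M'*M') → Fin n × Fin n), inferInstance,
    inferInstance, fun ω => U ω ×ˢ U ω,
    fun ω p => acc (cost ρ p) j t0 q (M*M) (M'*M') (19 * η * (M'*M')) ω, ?_, ?_, ?_⟩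
  · intro ω
    have : (U ω).card ≤ q * (M*M) + (M'*M' + M'*M') := by
      refine (card_union_le _ _).trans (Nat.add_le_add (card_image_le.trans (by simp))
        ((card_union_le _ _).trans (Nat.add_le_add (card_image_le.trans (by simp))
          (card_image_le.trans (by simp)))))
    rw [card_product]
    exact (Nat.mul_le_mul this this).trans (Nat.le_add_right _ _)
  · intro ω p p' h
    have hc : ∀ v ∈ U ω, ∀ u ∈ U ω, ∀ l l' : Fin d → Fin (q * (2 * (q*q) + 1) + 1),
        cost ρ p v u l l' = cost ρ p' v u l l' := by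
      intro v hv u hu l l'
      unfold cost
      split_ifs with c
      · rfl
      · rw [h (v, u) (mem_product.2 ⟨hv, hu⟩) c]
    have m1 : ∀ a b, ω.1 a b ∈ U ω := fun a b =>
      mem_union_left _ (mem_image.2 ⟨(a, b), mem_univ _, rfl⟩)
    have m2 : ∀ i, (ω.2 i).1 ∈ U ω := fun i =>
      mem_union_right _ (mem_union_left _ (mem_image.2 ⟨i, mem_univ _, rfl⟩))
    have m3 : ∀ i, (ω.2 i).2 ∈ U ω := fun i =>
      mem_union_right _ (mem_union_right _ (mem_image.2 ⟨i, mem_univ _, rfl⟩))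
    have hh : ∀ π, ∀ v ∈ U ω, hyb (cost ρ p) j t0 q ω.1 π v = hyb (cost ρ p') j t0 q ω.1 π v := by
      intro π v hv
      unfold hyb br
      simp only [hc v hv _ (m1 _ _)]
    unfold acc
    refine exists_congr fun π => ?_
    simp only [hh π _ (m2 _), hh π _ (m3 _), hc _ (m2 _) _ (m3 _)]
  · intro K w hK hw
    have hnr : (0:ℝ) < n := by exact_mod_cast (show 0 < n by omega)
    have hg := cost_good (d := d) (R := q * (2 * (q*q) + 1) + 1) (by omega) ρ hρ0 hK hw
    have hbr : ((n / q + 1 : ℕ) : ℝ) ≤ 2 * n / q := by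
      have h1 : ((n / q : ℕ) : ℝ) ≤ n / q := Nat.cast_div_le
      have h2 : (1:ℝ) ≤ n / q := by
        rw [le_div_iff₀ hqr]; simpa using (show q ≤ n by omega)
      push_cast
      have : 2 * (n:ℝ) / q = n / q + n / q := by ring
      linarith
    have hq' : 12 / (q:ℝ) ≤ η := by
      rw [div_le_iff₀ hqr]; rw [div_lt_iff₀ hη0] at hq; linarith
    have T := tester hg j t0 (2 * n / q)
      (fun k => le_trans (by exact_mod_cast block_card n _ k (Nat.succ_pos _)) hbr)
      q M M' hM0 hM0' (fun v => block_lt n q hq0 v) η hη0 (by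
        set L : ℝ := (Fintype.card (Fin d → Fin (q * (2 * (q*q) + 1) + 1)) : ℝ)
        have hM2 : 8 * L / M ≤ η := by
          rw [div_le_iff₀ hMr]; rw [div_lt_iff₀ hη0] at hM; linarith
        rw [Fintype.card_fin]
        have : (q:ℝ) * (4 * L * (2 * n / q) * n / M + 3 * (2 * n / q)^2)
            = (8 * L / M + 12 / q) * (n:ℝ)^2 := by field_simp; ring
        rw [this]
        have : (0:ℝ) ≤ (n:ℝ)^2 := by positivity
        nlinarith)
      (by rw [div_lt_iff₀ hη0] at hM'; linarith)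
    rw [Fintype.card_fin] at T
    have e1 : ∀ P : (Fin q → Fin (M*M) → Fin n) × (Fin (M'*M') → Fin n × Fin n) → Prop,
        Set.ncard {ω | P ω} = (univ.filter P).card := by
      intro P
      rw [← Set.ncard_coe_finset]; congr 1; ext ω; simp
    rw [e1, e1, Nat.card_eq_fintype_card]
    constructor
    · intro h
      obtain ⟨t, ht⟩ := complete (by omega) hq0 (show q ≤ n by omega) _ h.1
      have := T.1 t (ht.trans (by
        have : 4 * (n:ℝ)^2 / q = (12 / q) * (n:ℝ)^2 / 3 := by ring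
        rw [this]
        have : (0:ℝ) ≤ (n:ℝ)^2 := by positivity
        nlinarith))
      exact_mod_cast this
    · intro hF
      have := T.2 (fun t => by
        have s := sound hd (show 2 * d ≤ n by omega) ρ hρ0 ε hK hw hF t
        have a1 : (n1 : ℝ) ≤ n := by exact_mod_cast (show n1 ≤ n by omega)
        rw [div_lt_iff₀ hε] at hn1
        have a2 : 8 * (d:ℝ) ≤ n * ε := by nlinarith
        have a3 := mul_le_mul_of_nonneg_left a2 hnr.le
        rw [hη]; nlinarith)
      have c := card_filter_add_card_filter_not (s := univ)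
        (acc (cost ρ (mat K w)) j t0 q (M*M) (M'*M') (19 * η * (M'*M')))
      rw [card_univ] at c
      have h3 : 3 * (univ.filter (acc (cost ρ (mat K w)) j t0 q (M*M) (M'*M')
          (19 * η * (M'*M')))).card ≤ Fintype.card
          ((Fin q → Fin (M*M) → Fin n) × (Fin (M'*M') → Fin n × Fin n)) := by exact_mod_cast this
      beta_reduce
      have h4 : 2 * Fintype.card ((Fin q → Fin (M*M) → Fin n) × (Fin (M'*M') → Fin n × Fin n))
          ≤ 3 * (univ.filter fun a => ¬ acc (cost ρ (mat K w)) j t0 q (M*M) (M'*M')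
            (19 * η * (M'*M')) a).card := by omega
      convert h4
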